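import Pool.Agent.W560.HP.Stm

/-! # HP-CLO: the field of weights is algebraically closed (assembly) -/

set_option autoImplicit false

namespace Pool.Agent.W327.HP

open W560.HP

theorem clo (hS : S_SPEC) (h1 : S_D1) (h2 : S_D2) (h3 : S_D3) (h0 : S_BC0) : S_CLO := by
  intro k F _ _ _ _ m r w hm hG
  have hS' := fun i => hS k F m r w hm hG i
  have hind : AlgebraicIndependent k (fun j : Fin (m + 2) => w j) := (hS' 0).1
  have hk : ∀ x : F, IsAlgebraic k x → x ∈ Set.range (algebraMap k F) := by
    intro x hx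
    refine h0 k F (Fin (m + 2) ⊕ Fin 2) _
      (hG.ind 0 (by omega) 1 (by omega) (by norm_num)) x ?_ hx
    rw [hG.gen 0 (by omega) 1 (by omega) (by norm_num)]
    exact IntermediateField.mem_top
  choose D hD using fun i => h1 k F (Fin (m + 2)) (fun j : Fin (m + 2) => w j) hind i
  exact h3 k F (Fin (m + 2)) (fun j : Fin (m + 2) => w j) hind hk D hD
    (fun i x hx => h2 k F _ (fun j : Fin (m + 2) => w j) hind i (D i) (hD i) (hS' i).2 x hx)

end Pool.Agent.W327.HP
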